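import Pool.Agent.Y116.MT.BC3

/-!
# The motivic t-structure depends only on the characteristic of the field

Let `K` be a perfect field, `k₀ ⊂ K` a perfect subfield, for example the prime field, `C₀` and `C` the
categories of constructible motives over `k₀` and `K`, and `F : C₀ ⥤ C` the base change functor. The
motivic t-structure of the problem exists for `k₀` if and only if it exists for `K`, for every extension
`K` of `k₀`. Hence the question for all fields is equivalent to the question for the prime fields, and
the answer for a field depends only on its characteristic. In characteristic `p` the motivic t-structure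
exists for every field (or for one field) if and only if, over `𝔽_p`, rational and numerical equivalence
agree (Beilinson's conjecture) and Parshin's conjecture holds.

The categories are axiomatic: `IsMotives` lists the properties that are used of Chow motives and
realisations (Katz-Messing, hard Lefschetz), `IsBaseChange` the ones of the base change functor
(spreading out, specialisation of cycles, Deligne's theorems on the monodromy and on invariant cycles).
-/

open CategoryTheory Limits MonoidalCategory Pretriangulated Triangulated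
open Pool.Agent.Y116.MT

universe v u v' u' w x

theorem Pool.Agent.Results.MP_6d0ce9_ag.BaseField.result
    {C₀ : Type u'} [Category.{v'} C₀] [Preadditive C₀] [HasZeroObject C₀] [HasShift C₀ ℤ]
    [∀ n : ℤ, (shiftFunctor C₀ n).Additive] [Pretriangulated C₀] [IsTriangulated C₀]
    [MonoidalCategory C₀] [SymmetricCategory C₀] [MonoidalPreadditive C₀] [TensorTriangulated C₀]
    [RightRigidCategory C₀] [Linear ℚ C₀] [IsIdempotentComplete C₀]
    {C : Type u} [Category.{v} C] [Preadditive C] [HasZeroObject C] [HasShift C ℤ]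
    [∀ n : ℤ, (shiftFunctor C n).Additive] [Pretriangulated C] [IsTriangulated C]
    [MonoidalCategory C] [SymmetricCategory C] [MonoidalPreadditive C] [TensorTriangulated C]
    [RightRigidCategory C] [Linear ℚ C] [IsIdempotentComplete C]
    {Λ : Type x} [Nonempty Λ] {E : Λ → Type w} [∀ l, Field (E l)]
    (R₀ : ∀ l, Realisation C₀ (E l)) (R : ∀ l, Realisation C (E l))
    (Chow₀ : ObjectProperty C₀) (Chow : ObjectProperty C) (T₀ : C₀) (T : C)
    (h₀ : IsMotives Chow₀ T₀ R₀) (h : IsMotives Chow T R)
    (F : C₀ ⥤ C) [F.Monoidal] [F.CommShift ℤ] (hF : IsBaseChange F Chow₀ Chow R₀ R) :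
    ((∃ t₀ : TStructure C₀, IsMotivic t₀ R₀) ↔ ∃ t : TStructure C, IsMotivic t R) ∧
      (∀ (t₀ : TStructure C₀) (t : TStructure C), IsMotivic t₀ R₀ → IsMotivic t R → ∀ X : C₀,
        (t₀.le 0 X ↔ t.le 0 (F.obj X)) ∧ (t₀.ge 0 X ↔ t.ge 0 (F.obj X))) ∧
      ∀ (φ : 𝟭 C₀ ⟶ 𝟭 C₀) (q : ℝ), IsFrobenius Chow₀ φ q R₀ →
        ((∃ t : TStructure C, IsMotivic t R) ↔
          ((∀ (P : C₀) (s : 𝟙_ C₀ ⟶ P), Chow₀ P → (∀ r : P ⟶ 𝟙_ C₀, s ≫ r = 0) → s = 0) ∧
            ∀ (P : C₀) (n : ℤ) (f : 𝟙_ C₀ ⟶ P⟦n⟧), Chow₀ P → n < 0 → f = 0)) :=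
  ⟨motivic_iff h₀ h hF, fun _ _ ht₀ ht X => motivic_compat h₀ h hF ht₀ ht X,
    fun _ _ hφ => (motivic_iff h₀ h hF).symm.trans (finiteField_criterion h₀.unit_end h₀.chow hφ)⟩
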