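import Pool.Agent.Y116.MT.ConsFF

/-!
# Conservativity of a realisation and numerical equivalence

For a category `C` with the structure carried by the category of constructible Voevodsky motives
over a field, suppose that a realisation is conservative. Then numerical and homological
equivalence agree for the sections of Chow motives which are fixed by an endomorphism that vanishes
on the cohomology in nonzero degrees. Over a finite field this gives the standard conjecture D
(numerical equivalence is homological equivalence) for all Chow motives, and the vanishing of all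
the `Hom(𝟙, P⟦n⟧)` for the Chow motives `P` with `H^0(P) = 0`.
-/

open CategoryTheory Limits MonoidalCategory Pretriangulated Triangulated
open Pool.Agent.Y116.MT

universe v u w

theorem Pool.Agent.Results.MP_6d0ce9_ag.Conservativity.result
    {C : Type u} [Category.{v} C] [Preadditive C] [HasZeroObject C] [HasShift C ℤ]
    [∀ n : ℤ, (shiftFunctor C n).Additive] [Pretriangulated C]
    [MonoidalCategory C] [SymmetricCategory C] [MonoidalPreadditive C] [TensorTriangulated C]
    [RightRigidCategory C] [Linear ℚ C]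
    {E : Type w} [Field E] (R : Realisation C E)
    (conservative : ∀ X : C, (∀ i : ℤ, IsZero (R.H.obj (X⟦i⟧))) → IsZero X)
    (Chow : ObjectProperty C) (hChow : IsChow Chow) :
    (∀ (P : C) (s : 𝟙_ C ⟶ P) (p : P ⟶ P), Chow P → s ≫ p = s →
        (∀ j : ℤ, j ≠ 0 → R.H.map (p⟦j⟧') = 0) → (∀ r : P ⟶ 𝟙_ C, s ≫ r = 0) →
        R.H.map s = 0) ∧
      (∀ (φ : 𝟭 C ⟶ 𝟭 C) (c : ℝ), (∀ e : 𝟙_ C ⟶ 𝟙_ C, ∃ q : ℚ, e = q • 𝟙 (𝟙_ C)) →
        IsFrobenius Chow φ c (fun _ : Unit => R) → ∀ P : C, Chow P →
          (∀ s : 𝟙_ C ⟶ P, (∀ r : P ⟶ 𝟙_ C, s ≫ r = 0) → R.H.map s = 0) ∧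
          (IsZero (R.H.obj P) → ∀ (n : ℤ) (s : 𝟙_ C ⟶ P⟦n⟧), s = 0)) :=
  ⟨fun _ s p hP h1 h2 h3 => cons_section conservative hChow hP s p h1 h2 h3,
    fun _ _ hEnd hF _ hP => ⟨fun s hs => cons_finiteField hEnd hChow hF () conservative hP s hs,
      fun h0 n s => cons_vanish hEnd hChow hF () conservative hP h0 n s⟩⟩
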