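import Pool.Agent.Y116.MT.General

/-!
# The motivic t-structure over a general field

For a category `C` with the structure carried by the category of constructible Voevodsky motives
over a field, the motivic t-structure of the problem exists if and only if

* every Chow motive is a finite direct sum of Chow motives with realisations in one degree
  (Chow-Kuenneth decompositions);
* `Hom(𝟙, P[n]) = 0` for a Chow motive `P` in degree `i` and `n ≤ i`, `(n, i) ≠ (0, 0)`
  (the vanishing conjectures of Beilinson-Soule and Murre);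
* homologically trivial morphisms from `𝟙` to Chow motives in degree `0` vanish (Murre);
* numerically trivial morphisms from `𝟙` to Chow motives are homologically trivial (the standard
  conjecture D).
-/

open CategoryTheory Limits MonoidalCategory Pretriangulated Triangulated
open Pool.Agent.Y116.MT

universe v u w x

theorem Pool.Agent.Results.MP_6d0ce9_ag.GeneralField.result
    {C : Type u} [Category.{v} C] [Preadditive C] [HasZeroObject C] [HasShift C ℤ]
    [∀ n : ℤ, (shiftFunctor C n).Additive] [Pretriangulated C] [IsTriangulated C]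
    [MonoidalCategory C] [SymmetricCategory C] [MonoidalPreadditive C] [TensorTriangulated C]
    [RightRigidCategory C] [Linear ℚ C] [IsIdempotentComplete C]
    (unit_end : ∀ e : 𝟙_ C ⟶ 𝟙_ C, ∃ q : ℚ, e = q • 𝟙 (𝟙_ C))
    {Λ : Type x} [Nonempty Λ] {E : Λ → Type w} [∀ l, Field (E l)]
    (R : ∀ l, Realisation C (E l)) (Chow : ObjectProperty C) (hChow : IsChow Chow)
    (T : C) (hT : HardLefschetz Chow T R) :
    (∃ t : TStructure C, IsMotivic t R) ↔
      ((∀ P : C, Chow P → ∃ (n : ℕ) (Q : Fin n → C) (d : Fin n → ℤ), (∀ j, Chow (Q j)) ∧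
          (∀ j l, (R l).Deg (Q j) (d j)) ∧ Nonempty (P ≅ ⨁ Q)) ∧
        (∀ (P : C) (i n : ℤ) (f : 𝟙_ C ⟶ P⟦n⟧), Chow P → (∀ l, (R l).Deg P i) → n ≤ i →
          (n ≠ 0 ∨ i ≠ 0) → f = 0) ∧
        (∀ (P : C) (s : 𝟙_ C ⟶ P), Chow P → (∀ l, (R l).Deg P 0) →
          (∀ l, (R l).H.map s = 0) → s = 0) ∧
        (∀ (P : C) (s : 𝟙_ C ⟶ P), Chow P → (∀ r : P ⟶ 𝟙_ C, s ≫ r = 0) →
          ∀ l, (R l).H.map s = 0)) :=
  general_criterion unit_end hChow hT
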