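import Pool.Agent.Y116.MT.Trunc

/-!
# One prime number is enough

For a category `C` with the structure carried by the category of constructible Voevodsky motives
over a field, let `l₀` be one of the primes. The motivic t-structure of the problem exists if and
only if the realisation at `l₀` is conservative and every object has a truncation for the
realisation at `l₀`; and a t-structure which is motivic for the realisation at `l₀` is motivic
for all the primes.
-/

open CategoryTheory Limits MonoidalCategory Pretriangulated Triangulated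
open Pool.Agent.Y116.MT

universe v u w x

theorem Pool.Agent.Results.MP_6d0ce9_ag.OnePrime.result
    {C : Type u} [Category.{v} C] [Preadditive C] [HasZeroObject C] [HasShift C ℤ]
    [∀ n : ℤ, (shiftFunctor C n).Additive] [Pretriangulated C] [IsTriangulated C]
    [MonoidalCategory C] [SymmetricCategory C] [MonoidalPreadditive C] [TensorTriangulated C]
    [RightRigidCategory C] [Linear ℚ C] [IsIdempotentComplete C]
    (unit_end : ∀ e : 𝟙_ C ⟶ 𝟙_ C, ∃ q : ℚ, e = q • 𝟙 (𝟙_ C))
    {Λ : Type x} {E : Λ → Type w} [∀ l, Field (E l)]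
    (R : ∀ l, Realisation C (E l)) (Chow : ObjectProperty C) (hChow : IsChow Chow)
    (T : C) (hT : HardLefschetz Chow T R)
    (betti : ∀ (P : C) (i : ℤ) (l l' : Λ), Chow P → IsZero ((R l).H.obj (P⟦i⟧)) →
      IsZero ((R l').H.obj (P⟦i⟧))) (l₀ : Λ) :
    ((∃ t : TStructure C, IsMotivic t R) ↔
      ((∀ X : C, (∀ i : ℤ, IsZero ((R l₀).H.obj (X⟦i⟧))) → IsZero X) ∧
        ∀ X : C, ∃ (A : C) (f : A ⟶ X), (∀ i : ℤ, i ≤ 0 → IsIso ((R l₀).H.map (f⟦i⟧'))) ∧
          ∀ i : ℤ, 0 < i → IsZero ((R l₀).H.obj (A⟦i⟧)))) ∧
      (∀ t : TStructure C, IsMotivic t (fun _ : Unit => R l₀) → IsMotivic t R) :=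
  ⟨trunc_criterion unit_end hChow hT betti l₀, fun _ ht => indep unit_end hChow hT betti l₀ ht⟩
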